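import Pool.Agent.HP27.EN.F
import Pool.Agent.N699.ST.Tra

/-!
# The iterates of `x ↦ 2 x - 1`, shifted by small random perturbations of arbitrary laws, are prime at the expected number of primes

`2 ^ k (x - 1) + 1` is the `k`-th iterate of `x ↦ 2 x - 1` at `x`. We consider all maps `x ↦ d (x - 1) + 1 + h` with the slopes
`d ≤ log ^ A N` and with the integers `h` near a random real number, of which only the probability is known with which the sums
of some number `q` of independent copies collide.

New: the estimate with arbitrary coefficients for one random shift under this hypothesis (`Pool.Agent.HP27.EN`). From the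
starting files: the passage from one shift to several linear forms with all small slopes (`Pool.Agent.N699.ST.ws_all`), the
majorant and orthogonality estimates (`Pool.Agent.TH872.Sq`).
-/

set_option autoImplicit false

namespace Pool.Agent.Results.MP_0fefc4_nt.CollisionIterates

open Finset

/-- For every prime `p` there is an `r` such that `p` divides neither `r` nor any `d i * (r - 1) + 1 + h i`. -/
def Admissible {s : ℕ} (d h : Fin s → ℕ) : Prop := ∀ p : ℕ, p.Prime → ∃ r : ℕ, ¬ p ∣ r ∧ ∀ i, ¬ p ∣ d i * (r - 1) + 1 + h i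

/-- The number of the residues `r < p` for which `p` divides `r * ∏ i, (d i * (r - 1) + 1 + h i)`. -/
def nu {s : ℕ} (d h : Fin s → ℕ) (p : ℕ) : ℕ := ((range p).filter fun r => p ∣ r * ∏ i, (d i * (r - 1) + 1 + h i)).card

/-- The partial product over the primes `p ≤ z` of the singular series. -/
noncomputable def sing {s : ℕ} (d h : Fin s → ℕ) (z : ℕ) : ℝ :=
  ∏ p ∈ (Icc 1 z).filter Nat.Prime, (1 - (nu d h p : ℝ) / p) / (1 - 1 / (p : ℝ)) ^ (s + 1)

/-- The number of the primes `p ≤ x` for which all `d i * (p - 1) + 1 + h i` are primes. -/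
def count {s : ℕ} (d h : Fin s → ℕ) (x : ℕ) : ℕ :=
  ((Icc 1 x).filter fun p => p.Prime ∧ ∀ i, (d i * (p - 1) + 1 + h i).Prime).card

/-- The formula of Hardy and Littlewood for the primes `p ≤ x` with all `d i * (p - 1) + 1 + h i` prime, where `log N` is the
approximate size of the logarithms of the primes: the singular series converges to some `S > 0`, the number of the solutions
weighted with the von Mangoldt function is `S x`, with an error of at most `x / log ^ U N`, and the number of the solutions is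
`S x / log ^ (s + 1) N`, with a relative error of at most `ε`. -/
def Formula {s : ℕ} (ε : ℝ) (U N x : ℕ) (d h : Fin s → ℕ) : Prop :=
  ∃ S : ℝ, 0 < S ∧ Filter.Tendsto (sing d h) Filter.atTop (nhds S) ∧
    |∑ n ∈ Icc 1 x, ArithmeticFunction.vonMangoldt n * ∏ i, ArithmeticFunction.vonMangoldt (d i * (n - 1) + 1 + h i) - S * x| ≤
      x / Real.log N ^ U ∧
    |(count d h x : ℝ) - S * (x / Real.log N ^ (s + 1))| ≤ ε * (S * (x / Real.log N ^ (s + 1)))

/-- The formula holds for the shifts `h`, for all `j ≤ log ^ A N`, for ALL slopes `1 ≤ d i ≤ j` (with `d i ≤ h i + 1`) for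
which the system is admissible, and for the primes `p ≤ N / j`. -/
def AllSlopes {s : ℕ} (ε : ℝ) (A U N : ℕ) (h : Fin s → ℕ) : Prop :=
  ∀ (j : ℕ) (d : Fin s → ℕ), (j : ℝ) ≤ Real.log N ^ A → (∀ i, 1 ≤ d i ∧ d i ≤ j ∧ d i ≤ h i + 1) → Admissible d h →
    Formula ε U N (N / j) d h

open Classical in
/-- The probability that `|X₁ + ... + X_q - X'₁ - ... - X'_q| ≤ 1`, if the `X_j` and `X'_j` are independent random numbers
which take the value `a x` with the probability `p x`. -/
noncomputable def collision {ι : Type} [Fintype ι] (q : ℕ) (p a : ι → ℝ) : ℝ :=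
  ∑ x : Fin q → ι, ∑ y : Fin q → ι, if |∑ j, a (x j) - ∑ j, a (y j)| ≤ 1 then (∏ j, p (x j)) * ∏ j, p (y j) else 0

lemma val_eq (d h r : ℕ) (hr : 1 ≤ r) (hd : d ≤ h + 1) : d * (r - 1) + 1 + h = d * r + (h + 1 - d) := by
  obtain ⟨m, rfl⟩ : ∃ m, r = m + 1 := ⟨r - 1, by omega⟩
  rw [Nat.add_sub_cancel, mul_add, mul_one]
  omega

lemma to_form {s : ℕ} (ε : ℝ) (U U' N x : ℕ) (hN : 3 ≤ N) (hU : U ≤ U') (d h : Fin s → ℕ) (hd : ∀ i, d i ≤ h i + 1)
    (hf : Pool.Agent.N699.ST.Fo ε U' N x d (fun i => h i + 1 - d i)) : Formula ε U N x d h := by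
  obtain ⟨S, hS, h1, h2, h3⟩ := hf
  have hL : 1 ≤ Real.log N := by
    rw [Real.le_log_iff_exp_le (by exact_mod_cast (by omega : 0 < N))]
    have : (3 : ℝ) ≤ N := by exact_mod_cast hN
    linarith [Real.exp_one_lt_d9]
  refine ⟨S, hS, ?_, ?_, ?_⟩
  · have e : sing d h = Pool.Agent.N699.ST.sing d (fun i => h i + 1 - d i) := by
      funext z
      unfold sing Pool.Agent.N699.ST.sing
      apply prod_congr rfl
      intro p _
      have e2 : nu d h p = Pool.Agent.N699.ST.nu d (fun i => h i + 1 - d i) p := by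
        unfold nu Pool.Agent.N699.ST.nu
        congr 1
        apply filter_congr
        intro r _
        rcases Nat.eq_zero_or_pos r with h0 | h0
        · subst h0
          simp
        · have : ∀ i, d i * (r - 1) + 1 + h i = d i * r + (h i + 1 - d i) := fun i => val_eq _ _ _ h0 (hd i)
          simp only [this]
      rw [e2]
    rw [e]
    exact h1
  · have e : ∑ n ∈ Icc 1 x, ArithmeticFunction.vonMangoldt n * ∏ i, ArithmeticFunction.vonMangoldt (d i * (n - 1) + 1 + h i) =
        ∑ n ∈ Icc 1 x, ArithmeticFunction.vonMangoldt n * ∏ i, ArithmeticFunction.vonMangoldt (d i * n + (h i + 1 - d i)) := by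
      apply sum_congr rfl
      intro n hn
      have : ∀ i, d i * (n - 1) + 1 + h i = d i * n + (h i + 1 - d i) := fun i => val_eq _ _ _ (mem_Icc.1 hn).1 (hd i)
      simp only [this]
    rw [e]
    refine h2.trans ?_
    exact div_le_div_of_nonneg_left (Nat.cast_nonneg _) (by positivity) (pow_le_pow_right₀ hL hU)
  · have e : count d h x = Pool.Agent.N699.ST.cnt d (fun i => h i + 1 - d i) x := by
      unfold count Pool.Agent.N699.ST.cnt
      congr 1
      apply filter_congr
      intro n hn
      have : ∀ i, d i * (n - 1) + 1 + h i = d i * n + (h i + 1 - d i) := fun i => val_eq _ _ _ (mem_Icc.1 hn).1 (hd i)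
      simp only [this]
    rw [e]
    exact h3

lemma to_adm {s : ℕ} (d h : Fin s → ℕ) (hd : ∀ i, d i ≤ h i + 1) (ha : Admissible d h) :
    Pool.Agent.N699.ST.Adm d (fun i => h i + 1 - d i) := by
  intro p hp
  obtain ⟨r, h1, h2⟩ := ha p hp
  have hr : 1 ≤ r := by
    rcases Nat.eq_zero_or_pos r with h0 | h0
    · exact absurd (by rw [h0]; exact dvd_zero p) h1
    · exact h0
  refine ⟨r, h1, fun i => ?_⟩
  rw [← val_eq _ _ _ hr (hd i)]
  exact h2 i

open Classical in
/-- Let `s ≥ 1`, `q i ≥ 1` (`i < s`), `κ`, `T`, `A`, `U`, `W` and `ε > 0` be fixed and let `N` be large. Let `X i = a i x`,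
`i < s`, be independent random real numbers in `[0, T N]` with ARBITRARY distributions on finite sets, such that the sums of
`q i` and of further `q i` independent copies of `X i` differ by at most `1` with a probability of at most `log ^ κ N / N`.
Then the following holds with a probability of at least `1 - 1 / log ^ U N` for ALL vectors `h` of integers `h i ≥ 0` with
`|h i - X i| ≤ log ^ W N`: for all `j ≤ log ^ A N` and ALL slopes `1 ≤ d 1, ..., d s ≤ j` (for instance powers of two) for
which the system is admissible, the formula of Hardy and Littlewood holds for the number of the primes `p ≤ N / j` for which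
all the numbers `d i (p - 1) + 1 + h i` are primes. (For `d i = 2 ^ k` this is the `k`-th iterate of `x ↦ 2 x - 1` at `p`,
shifted by `h i`.) -/
theorem result (s : ℕ) (hs : 1 ≤ s) (q : Fin s → ℕ) (hq : ∀ i, 1 ≤ q i) (κ T A U W : ℕ) (ε : ℝ) (hε : 0 < ε) :
    ∃ N₀ : ℕ, ∀ N : ℕ, N₀ ≤ N → ∀ (ι : Fin s → Type) [∀ i, Fintype (ι i)] (p a : ∀ i, ι i → ℝ), (∀ i x, 0 ≤ p i x) →
      (∀ i, ∑ x, p i x = 1) → (∀ i x, 0 ≤ a i x ∧ a i x ≤ T * N) →
      (∀ i, collision (q i) (p i) (a i) ≤ Real.log N ^ κ / N) →
        1 - 1 / Real.log N ^ U ≤ ∑ x : (∀ i, ι i), (if ∀ h : Fin s → ℕ, (∀ i, |(h i : ℝ) - a i (x i)| ≤ Real.log N ^ W) →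
          AllSlopes ε A U N h then ∏ i, p i (x i) else 0) := by
  obtain ⟨F, W', U', hUU, N1, h1⟩ := Pool.Agent.HP27.EN.near_fam s q hq T κ (W + A + 1) U
  obtain ⟨V, hV⟩ : ∃ V, V = 2 * (U' + 1) + A * (s + 2) + 3 := ⟨_, rfl⟩
  obtain ⟨N2, h2⟩ := Pool.Agent.N699.ST.ws_all s hs (fun i => Pool.Agent.HP27.EN.EL (q i) F W') (fun _ => 1)
    (fun _ => le_rfl) 0 U' A V hV ε hε (fun i => Pool.Agent.HP27.EN.oneLaw_EL (q i) (hq i) F W' _)
  refine ⟨N1 + N2 + 8, fun N hN ι _ p a hp0 hp1 ha hcoll => ?_⟩
  have hN0 : (0 : ℝ) < N := by exact_mod_cast (by omega : 0 < N)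
  have hL2 : 2 ≤ Real.log N := by
    rw [Real.le_log_iff_exp_le hN0]
    have h8 : (8 : ℝ) ≤ N := by exact_mod_cast (by omega : 8 ≤ N)
    have h9 : Real.exp 2 = Real.exp 1 * Real.exp 1 := by rw [← Real.exp_add]; norm_num
    have h10 := Real.exp_one_lt_d9
    have h11 := Real.exp_pos 1
    rw [h9]
    nlinarith
  have hL1 : 1 ≤ Real.log N := by linarith
  have h3 := h1 N (by omega) (fun m => ¬ Pool.Agent.N699.ST.AllS ε A U' N m) (fun Ω p' hlaw => by
    have h4 := h2 N (by omega) Ω p' hlaw (fun i v _ => (hlaw i).1 v) (fun _ => 0) (fun _ => Nat.zero_le _)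
    have e1 : ∀ v : Fin s → ℕ, (fun i => 0 + 1 * v i) = v := fun v => by funext i; omega
    simp only [e1] at h4
    refine le_trans (le_of_eq ?_) h4
    apply sum_congr rfl
    intro v _
    congr) ι p a hp0 hp1 (fun i x => ⟨by
      have := (ha i x).1
      have h5 : 0 ≤ Real.log N ^ (W + A + 1) := by positivity
      linarith, (ha i x).2⟩) (fun i => by
      have h5 : Pool.Agent.HP27.EN.coll (q i) (p i) (a i) ≤ Real.log N ^ κ / N := hcoll i
      rw [le_div_iff₀ hN0] at h5
      linarith)
  have hpt : ∀ x : (∀ i, ι i), ∏ i, p i (x i) ≤ (if ∀ h : Fin s → ℕ, (∀ i, |(h i : ℝ) - a i (x i)| ≤ Real.log N ^ W) →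
          AllSlopes ε A U N h then ∏ i, p i (x i) else 0) +
      (if ∃ h : Fin s → ℕ, (∀ i, |(h i : ℝ) - a i (x i)| ≤ Real.log N ^ (W + A + 1)) ∧ ¬ Pool.Agent.N699.ST.AllS ε A U' N h then
        ∏ i, p i (x i) else 0) := by
    intro x
    have hP0 : 0 ≤ ∏ i, p i (x i) := prod_nonneg fun i _ => hp0 i _
    by_cases h4 : ∀ h : Fin s → ℕ, (∀ i, |(h i : ℝ) - a i (x i)| ≤ Real.log N ^ W) → AllSlopes ε A U N h
    · rw [if_pos h4]
      split_ifs
      · linarith
      · linarith
    · rw [if_neg h4, zero_add, if_pos]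
      push Not at h4
      obtain ⟨h, hh, hbad⟩ := h4
      unfold AllSlopes at hbad
      push Not at hbad
      obtain ⟨j, d, hj, hd, hadm, hF⟩ := hbad
      refine ⟨fun i => h i + 1 - d i, fun i => ?_, fun hall => ?_⟩
      · obtain ⟨g1, g2, g3⟩ := hd i
        have g4 : (((h i + 1 - d i : ℕ)) : ℝ) = (h i : ℝ) + 1 - d i := by
          rw [Nat.cast_sub g3]
          push_cast
          ring
        have g5 : (d i : ℝ) ≤ Real.log N ^ A := (Nat.cast_le.2 g2).trans hj
        have g6 : (1 : ℝ) ≤ d i := by exact_mod_cast g1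
        have g7 := abs_le.1 (hh i)
        have g8 : Real.log N ^ W + Real.log N ^ A ≤ Real.log N ^ (W + A + 1) := by
          have e : Real.log N ^ (W + A + 1) = Real.log N * (Real.log N ^ W * Real.log N ^ A) := by
            rw [pow_succ, pow_add]
            ring
          have h5 : 1 ≤ Real.log N ^ W := one_le_pow₀ hL1
          have h6 : 1 ≤ Real.log N ^ A := one_le_pow₀ hL1
          have h7 : Real.log N ^ W ≤ Real.log N ^ W * Real.log N ^ A := le_mul_of_one_le_right (by linarith) h6
          have h8 : Real.log N ^ A ≤ Real.log N ^ W * Real.log N ^ A := le_mul_of_one_le_left (by linarith) h5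
          have h9 : 2 * (Real.log N ^ W * Real.log N ^ A) ≤ Real.log N * (Real.log N ^ W * Real.log N ^ A) :=
            mul_le_mul_of_nonneg_right hL2 (by positivity)
          rw [e]
          linarith
        rw [g4, abs_le]
        constructor <;> linarith [g7.1, g7.2]
      · apply hF
        have h5 := hall j d hj (fun i => ⟨(hd i).1, (hd i).2.1⟩) (to_adm d h (fun i => (hd i).2.2) hadm)
        exact to_form ε U U' N (N / j) (by omega) hUU d h (fun i => (hd i).2.2) h5
  have h4 := sum_le_sum (s := (univ : Finset (∀ i, ι i))) fun x _ => hpt x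
  rw [sum_add_distrib] at h4
  have h5 : ∑ x : (∀ i, ι i), ∏ i, p i (x i) = 1 := by
    rw [← Fintype.prod_sum]
    rw [prod_congr rfl (fun i _ => hp1 i), prod_const_one]
  rw [h5] at h4
  linarith

end Pool.Agent.Results.MP_0fefc4_nt.CollisionIterates
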