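import Pool.Agent.HP27.PG.F

/-!
# Primes `p` from arbitrary dense sets of primes with `d (p - 1) + 1 + n` prime, for almost all multiples `n` of a small
primorial in all short windows around a random number with small collision probability, and for all small `d`

For `d = 2 ^ k` the map `p ↦ d (p - 1) + 1` is the `k`-th iterate of `p ↦ 2 p - 1`.

New: the model for the sum over one set of primes under the collision hypothesis, the maximal form over all windows, the sieve
of the differences in windows of the length of a power of the logarithm (`Pool.Agent.HP27.PG`). From the starting files: the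
second moment of the singular factors of a dense set (`Pool.Agent.Y877`), the majorant and orthogonality estimates
(`Pool.Agent.TH872.Sq`), Bombieri-Vinogradov for the lower bound of the number of the primes in (2) (`Pool.Agent.H373R2.T7`).
-/

set_option autoImplicit false

open Finset

namespace Pool.Agent.Results.MP_0fefc4_nt.DenseSetsShortWindows

/-- the product of `1 - 1/q` over the primes `q ≤ y` -/
noncomputable def V (y : ℕ) : ℝ := ∏ q ∈ (Icc 1 y).filter Nat.Prime, (1 - 1 / (q : ℝ))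

/-- the `p ∈ S` for which `d (p - 1) + 1` has no prime factor `≤ y` -/
def Cop (y d : ℕ) (S : Finset ℕ) : Finset ℕ := S.filter (fun p : ℕ => (d * (p - 1) + 1).Coprime (primorial y))

/-- the `p ∈ S` such that `d (p - 1) + 1` has no prime factor `≤ y` and `d (p - 1) + 1 + n` is a prime number -/
def Rep (y d : ℕ) (S : Finset ℕ) (n : ℤ) : Finset ℕ :=
  (Cop y d S).filter (fun p : ℕ => (((d * (p - 1) + 1 : ℕ) : ℤ) + n).toNat.Prime)

/-- the multiples of `M`, numbered from the last one which is not larger than `X` -/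
noncomputable def mult (M : ℕ) (X : ℝ) (j : ℤ) : ℤ := M * (⌊X / M⌋ + j)

/-- In all windows around `X`: let `M` be the product of the primes `≤ y`. For all `G` with `log ^ W N ≤ G` and
`2 M G ≤ N`, and for all integers `j` with `|j| ≤ G` except at most `ε G` of them, `d (p - 1) + 1 + n` is prime for at least
`(1 - ε) #(Cop y d S) / (V y log N)` elements `p` of `Cop y d S`, where `n` is the multiple of `M` with the number `j`. -/
def Windows (ε : ℝ) (W N y d : ℕ) (S : Finset ℕ) (X : ℝ) : Prop :=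
  ∀ G : ℕ, Real.log N ^ W ≤ G → 2 * (primorial y * G) ≤ N →
    (((Icc (-(G : ℤ)) G).filter (fun j => ((Rep y d S (mult (primorial y) X j)).card : ℝ) <
      (1 - ε) * ((Cop y d S).card / (V y * Real.log N)))).card : ℝ) ≤ ε * G

/-- `Windows` for all `d` with `1 ≤ d ≤ log ^ J N` for which `Cop y d S` has at least `N / log ^ A N` elements -/
def AllWindows (A J : ℕ) (ε : ℝ) (W N y : ℕ) (S : Finset ℕ) (X : ℝ) : Prop :=
  ∀ d : ℕ, 1 ≤ d → (d : ℝ) ≤ Real.log N ^ J → (N : ℝ) ≤ (Cop y d S).card * Real.log N ^ A → Windows ε W N y d S X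

open Classical in
/-- The probability that `|X₁ + ... + X_q - X'₁ - ... - X'_q| ≤ 1`, if the `X_j` and `X'_j` are independent random numbers
which take the value `a x` with the probability `p x`. -/
noncomputable def collision {ι : Type} [Fintype ι] (q : ℕ) (p a : ι → ℝ) : ℝ :=
  ∑ x : Fin q → ι, ∑ y : Fin q → ι, if |∑ j, a (x j) - ∑ j, a (y j)| ≤ 1 then (∏ j, p (x j)) * ∏ j, p (y j) else 0

open Classical in
theorem one_d (A J : ℕ) (ε : ℝ) (hε : 0 < ε) (hε1 : ε ≤ 1) : ∃ K₀ : ℕ, ∀ q : ℕ, 1 ≤ q → ∀ κ T K₁ U : ℕ, ∃ W N₀ : ℕ,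
    ∀ N : ℕ, N₀ ≤ N → ∀ y : ℕ, K₀ * Real.log (Real.log N) ≤ y → y ≤ K₁ * Real.log (Real.log N) →
    ∀ (ι : Type) [Fintype ι] (p a : ι → ℝ), (∀ x, 0 ≤ p x) → ∑ x, p x = 1 → (∀ x, 2 * N ≤ a x ∧ a x ≤ T * N) →
    collision q p a ≤ Real.log N ^ κ / N →
    ∀ S : Finset ℕ, S ⊆ Icc 1 N → ∀ d : ℕ, 1 ≤ d → (d : ℝ) ≤ Real.log N ^ J →
    (N : ℝ) ≤ (Cop y d S).card * Real.log N ^ A →
    ∑ x, (if Windows ε W N y d S (a x) then 0 else p x) ≤ 1 / Real.log N ^ U := by
  obtain ⟨K₀, hK₀⟩ := Pool.Agent.HP27.PG.Pos.final (A + J) (ε / 2) (by linarith) (by linarith)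
  refine ⟨2 * K₀, fun q hq κ T K₁ U => ?_⟩
  obtain ⟨W, n1, hn1⟩ := hK₀ q hq (κ + J) T K₁ U
  obtain ⟨n2, hn2⟩ := Pool.Agent.H373R2.T7.ev_L' (max 4 (2 * J / ε))
  obtain ⟨n3, hn3⟩ := Pool.Agent.H373R2.T7.ev_log' J 1
  obtain ⟨n4, hn4⟩ : ∃ n4 : ℕ, ∀ N : ℕ, n4 ≤ N → J * Real.log (Real.log N) ≤ ε / 2 * Real.log N := by
    have h : Filter.Tendsto (fun N : ℕ => Real.log (Real.log N) / Real.log N) Filter.atTop (nhds 0) := by
      have h1 : Filter.Tendsto (fun x : ℝ => Real.log x / x) Filter.atTop (nhds 0) := by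
        have := Real.isLittleO_log_id_atTop.tendsto_div_nhds_zero
        exact this
      exact h1.comp (Real.tendsto_log_atTop.comp tendsto_natCast_atTop_atTop)
    have h2 := (h.const_mul (J : ℝ)).eventually (gt_mem_nhds (show (J : ℝ) * 0 < ε / 2 by simpa using by linarith))
    obtain ⟨m, hm⟩ := Filter.eventually_atTop.1 h2
    refine ⟨m + 3, fun N hN => ?_⟩
    have h3 := hm N (by omega)
    have h4 : 0 < Real.log N := Real.log_pos (by exact_mod_cast (by omega : 1 < N))
    rw [← mul_div_assoc, div_lt_iff₀ h4] at h3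
    exact h3.le
  refine ⟨2 * W, n1 + n2 + n3 + n4 + 3, fun N hN y hy1 hy2 ι _ p a hp0 hp1 ha hcoll S hS d hd1 hdJ hSA => ?_⟩
  have hL := hn2 N (by omega)
  have hs := hn3 N (by omega)
  have hll := hn4 N (by omega)
  have hL4 : 4 ≤ Real.log N := (le_max_left _ _).trans hL
  have hL0 : 0 < Real.log N := by linarith
  have hN0 : (0 : ℝ) < N := by exact_mod_cast (by omega : 0 < N)
  have hN1 : (1 : ℝ) ≤ N := by exact_mod_cast (by omega : 1 ≤ N)
  have hd0 : (1 : ℝ) ≤ d := by exact_mod_cast hd1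
  obtain ⟨N', hN'⟩ : ∃ N', N' = d * N := ⟨_, rfl⟩
  have hNN : N ≤ N' := by rw [hN']; exact Nat.le_mul_of_pos_left N hd1
  have hNNr : (N : ℝ) ≤ N' := by exact_mod_cast hNN
  have hN'r : (N' : ℝ) = d * N := by rw [hN']; push_cast; ring
  have hLL : Real.log N ≤ Real.log N' := Real.log_le_log hN0 hNNr
  have hL'0 : 0 < Real.log N' := by linarith
  have hll0 : 0 ≤ Real.log (Real.log N) := Real.log_nonneg (by linarith)
  have hlogd : Real.log d ≤ J * Real.log (Real.log N) := by
    rw [← Real.log_pow]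
    exact Real.log_le_log (by linarith) hdJ
  have hL'eq : Real.log N' = Real.log d + Real.log N := by
    rw [hN'r, Real.log_mul (by positivity) (by positivity)]
  have hL'up : Real.log N' ≤ (1 + ε / 2) * Real.log N := by
    rw [hL'eq]
    linarith
  have hL'sq : Real.log N' ≤ Real.log N ^ 2 := by
    have : (1 + ε / 2) * Real.log N ≤ 2 * Real.log N := mul_le_mul_of_nonneg_right (by linarith) hL0.le
    have h2 : 2 * Real.log N ≤ Real.log N * Real.log N := mul_le_mul_of_nonneg_right (by linarith) hL0.le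
    rw [sq]
    linarith
  have hll' : Real.log (Real.log N') ≤ 2 * Real.log (Real.log N) := by
    have h1 : Real.log (Real.log N') ≤ Real.log (Real.log N ^ 2) := Real.log_le_log hL'0 hL'sq
    rw [Real.log_pow] at h1
    exact_mod_cast h1
  have hll'' : Real.log (Real.log N) ≤ Real.log (Real.log N') := Real.log_le_log hL0 hLL
  -- the set
  obtain ⟨D, hD⟩ : ∃ D, D = (Cop y d S).image (fun p => d * (p - 1) + 1) := ⟨_, rfl⟩
  have hinj : ∀ s ∈ S, ∀ t ∈ S, d * (s - 1) + 1 = d * (t - 1) + 1 → s = t := by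
    intro s hs' t ht h
    have h1 := (mem_Icc.1 (hS hs')).1
    have h2 := (mem_Icc.1 (hS ht)).1
    have h3 : s - 1 = t - 1 := Nat.eq_of_mul_eq_mul_left hd1 (by omega)
    omega
  have hCS : Cop y d S ⊆ S := filter_subset _ _
  have hDcard : D.card = (Cop y d S).card := by
    rw [hD]
    apply card_image_of_injOn
    intro s hs' t ht h
    exact hinj s (hCS hs') t (hCS ht) h
  have hD1 : D ⊆ Icc 1 N' := by
    intro n hn
    rw [hD, mem_image] at hn
    obtain ⟨s, hs', rfl⟩ := hn
    have h1 := mem_Icc.1 (hS (hCS hs'))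
    rw [mem_Icc]
    refine ⟨by omega, ?_⟩
    obtain ⟨m, rfl⟩ : ∃ m, s = m + 1 := ⟨s - 1, by omega⟩
    rw [Nat.add_sub_cancel, hN']
    calc d * m + 1 ≤ d * m + d := by omega
      _ = d * (m + 1) := by ring
      _ ≤ d * N := Nat.mul_le_mul_left d h1.2
  have hD2 : ∀ s ∈ D, ∀ l : ℕ, l.Prime → l ≤ y → ¬ l ∣ s := by
    intro n hn l hl hly hdvd
    rw [hD, mem_image] at hn
    obtain ⟨s, hs', rfl⟩ := hn
    have h1 := (mem_filter.1 hs').2
    have h2 : l ∣ primorial y := (Nat.Prime.dvd_primorial_iff hl).2 hly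
    have h3 := Nat.dvd_gcd hdvd h2
    rw [Nat.Coprime.gcd_eq_one h1] at h3
    exact hl.one_lt.ne' (Nat.dvd_one.1 h3)
  have hD3 : (N' : ℝ) ≤ D.card * Real.log N' ^ (A + J) := by
    rw [hDcard]
    calc (N' : ℝ) = d * N := hN'r
      _ ≤ Real.log N ^ J * ((Cop y d S).card * Real.log N ^ A) :=
          mul_le_mul hdJ hSA hN0.le (by positivity)
      _ = (Cop y d S).card * Real.log N ^ (A + J) := by rw [pow_add]; ring
      _ ≤ _ := by
          apply mul_le_mul_of_nonneg_left _ (Nat.cast_nonneg _)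
          exact pow_le_pow_left₀ hL0.le hLL _
  have hss : √(N : ℝ) * √(N : ℝ) = N := Real.mul_self_sqrt hN0.le
  have hdN : (d : ℝ) ≤ N := by
    have h1 : √(N : ℝ) ≤ N := by
      rw [Real.sqrt_le_left hN0.le, sq]
      exact le_mul_of_one_le_left hN0.le hN1
    rw [one_mul] at hs
    exact hdJ.trans (hs.trans h1)
  have hY : √(N' : ℝ) ≤ N := by
    rw [Real.sqrt_le_left hN0.le, hN'r, sq]
    exact mul_le_mul_of_nonneg_right hdN hN0.le
  have hcoll' : (N' : ℝ) * Pool.Agent.HP27.EN.coll q p a ≤ Real.log N' ^ (κ + J) := by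
    have h1 : Pool.Agent.HP27.EN.coll q p a ≤ Real.log N ^ κ / N := hcoll
    rw [le_div_iff₀ hN0] at h1
    calc (N' : ℝ) * Pool.Agent.HP27.EN.coll q p a = d * (Pool.Agent.HP27.EN.coll q p a * N) := by rw [hN'r]; ring
      _ ≤ d * Real.log N ^ κ := mul_le_mul_of_nonneg_left h1 (by linarith)
      _ ≤ Real.log N ^ J * Real.log N ^ κ := mul_le_mul_of_nonneg_right hdJ (by positivity)
      _ = Real.log N ^ (κ + J) := by rw [pow_add]; ring
      _ ≤ _ := pow_le_pow_left₀ hL0.le hLL _
  have key := hn1 N' (by omega) y (by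
      refine le_trans ?_ hy1
      push_cast
      have : (K₀ : ℝ) * Real.log (Real.log N') ≤ K₀ * (2 * Real.log (Real.log N)) :=
        mul_le_mul_of_nonneg_left hll' (Nat.cast_nonneg _)
      linarith) (hy2.trans (mul_le_mul_of_nonneg_left hll'' (Nat.cast_nonneg _))) D hD1 hD2 hD3 N hY hNN ι p a hp0 hp1
    (fun x => ⟨(ha x).1, (ha x).2.trans (mul_le_mul_of_nonneg_left hNNr (Nat.cast_nonneg _))⟩) hcoll'
  have hV0 : 0 < V y := Pool.Agent.H373R2.T7.Vz_pos y
  have himp : ∀ x, (∀ G : ℕ, Real.log N' ^ W ≤ G → 2 * (primorial y * G) ≤ N →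
      (((Icc (-(G : ℤ)) G).filter (fun j => ((D.filter (fun s : ℕ =>
        (Pool.Agent.HP27.PG.mul (primorial y) (a x) j + s).toNat.Prime)).card : ℝ) <
        (1 - ε / 2) * (D.card / (Pool.Agent.H373R2.T7.Vz y * Real.log N')))).card : ℝ) ≤ ε / 2 * G) →
      Windows ε (2 * W) N y d S (a x) := by
    intro x h G hG1 hG2
    have hG3 : Real.log N' ^ W ≤ G := by
      refine le_trans ?_ hG1
      rw [pow_mul]
      exact pow_le_pow_left₀ hL'0.le hL'sq _
    have h1 := h G hG3 hG2
    have h2 : ε / 2 * (G : ℝ) ≤ ε * G := mul_le_mul_of_nonneg_right (by linarith) (Nat.cast_nonneg _)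
    refine le_trans ?_ (h1.trans h2)
    rw [Nat.cast_le]
    apply card_le_card
    intro j hj
    rw [mem_filter] at hj ⊢
    refine ⟨hj.1, ?_⟩
    have h3 : (D.filter (fun s : ℕ => (Pool.Agent.HP27.PG.mul (primorial y) (a x) j + s).toNat.Prime)).card =
        (Rep y d S (mult (primorial y) (a x) j)).card := by
      have e : D.filter (fun s : ℕ => (Pool.Agent.HP27.PG.mul (primorial y) (a x) j + s).toNat.Prime) =
          (Rep y d S (mult (primorial y) (a x) j)).image (fun p => d * (p - 1) + 1) := by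
        rw [hD, filter_image]
        unfold Rep
        congr 1
        apply filter_congr
        intro s _
        have e2 : Pool.Agent.HP27.PG.mul (primorial y) (a x) j + ((d * (s - 1) + 1 : ℕ) : ℤ) =
            ((d * (s - 1) + 1 : ℕ) : ℤ) + mult (primorial y) (a x) j := by
          unfold Pool.Agent.HP27.PG.mul mult
          ring
        rw [e2]
      rw [e]
      apply card_image_of_injOn
      intro s hs' t ht h
      exact hinj s (hCS ((filter_subset _ _) hs')) t (hCS ((filter_subset _ _) ht)) h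
    rw [h3]
    refine lt_of_lt_of_le hj.2 ?_
    rw [hDcard]
    have h4 : (1 - ε) * (((Cop y d S).card : ℝ) / (V y * Real.log N)) =
        ((Cop y d S).card : ℝ) / V y * ((1 - ε) / Real.log N) := by
      field_simp
    have h5 : (1 - ε / 2) * (((Cop y d S).card : ℝ) / (Pool.Agent.H373R2.T7.Vz y * Real.log N')) =
        ((Cop y d S).card : ℝ) / V y * ((1 - ε / 2) / Real.log N') := by
      change (1 - ε / 2) * (((Cop y d S).card : ℝ) / (V y * Real.log N')) = _
      field_simp
    rw [h4, h5]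
    apply mul_le_mul_of_nonneg_left _ (by positivity)
    rw [div_le_div_iff₀ hL0 hL'0]
    calc (1 - ε) * Real.log N' ≤ (1 - ε) * ((1 + ε / 2) * Real.log N) :=
          mul_le_mul_of_nonneg_left hL'up (by linarith)
      _ = ((1 - ε) * (1 + ε / 2)) * Real.log N := by ring
      _ ≤ (1 - ε / 2) * Real.log N := by
          apply mul_le_mul_of_nonneg_right _ hL0.le
          nlinarith
  calc ∑ x, (if Windows ε (2 * W) N y d S (a x) then 0 else p x) ≤ _ := by
        refine sum_le_sum fun x _ => ?_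
        by_cases hx : ∀ G : ℕ, Real.log N' ^ W ≤ G → 2 * (primorial y * G) ≤ N →
          (((Icc (-(G : ℤ)) G).filter (fun j => ((D.filter (fun s : ℕ =>
            (Pool.Agent.HP27.PG.mul (primorial y) (a x) j + s).toNat.Prime)).card : ℝ) <
            (1 - ε / 2) * (D.card / (Pool.Agent.H373R2.T7.Vz y * Real.log N')))).card : ℝ) ≤ ε / 2 * G
        · rw [if_pos (himp x hx)]
          refine le_trans (le_of_eq ?_) (le_refl (if ∀ G : ℕ, Real.log N' ^ W ≤ G → 2 * (primorial y * G) ≤ N →
          (((Icc (-(G : ℤ)) G).filter (fun j => ((D.filter (fun s : ℕ =>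
            (Pool.Agent.HP27.PG.mul (primorial y) (a x) j + s).toNat.Prime)).card : ℝ) <
            (1 - ε / 2) * (D.card / (Pool.Agent.H373R2.T7.Vz y * Real.log N')))).card : ℝ) ≤ ε / 2 * G then 0 else p x))
          rw [if_pos hx]
        · rw [if_neg hx]
          split_ifs
          · exact hp0 x
          · exact le_rfl
    _ ≤ 1 / Real.log N' ^ U := key
    _ ≤ 1 / Real.log N ^ U := one_div_le_one_div_of_le (by positivity) (pow_le_pow_left₀ hL0.le hLL _)

open Classical in
/-- For all `A`, `J` and `0 < ε ≤ 1` there is `K₀` such that for all `q ≥ 1`, `κ`, `T`, `B`, `K₁` and `U` there is `W` such that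
the following holds for all large `N`. Let `y` be between `K₀ log log N` and `K₁ log log N` and `M` the product of the primes
`≤ y`. Let `X = a x` be a random real number in `[2 N, T N]` with an ARBITRARY distribution on a finite set, such that the
sums of `q` and of further `q` independent copies of `X` differ by at most `1` with a probability of at most `log ^ κ N / N`.
(1) Let `S l`, for at most `log ^ B N` indices `l`, be any sets of primes `≤ N`. With a probability of at least
`1 - 1 / log ^ U N` the following holds for all `l` and for all `1 ≤ d ≤ log ^ J N` for which the set `S'` of the `p ∈ S l` with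
`d (p - 1) + 1` coprime to `M` has at least `N / log ^ A N` elements: in ALL windows of multiples of `M` around `X`, of
`G ≥ log ^ W N` multiples on both sides, `2 M G ≤ N`, for all the multiples `n` of `M` except at most `ε G`, the number
`d (p - 1) + 1 + n` is prime for at least `(1 - ε) #S' / (V y log N)` elements `p` of `S'`. (2) If `S l` is the set of all primes
`≤ N`, then `S'` has at least `N / log ^ 3 N` elements, for all `d`. -/
theorem result (A J : ℕ) (ε : ℝ) (hε : 0 < ε) (hε1 : ε ≤ 1) : ∃ K₀ : ℕ, ∀ q : ℕ, 1 ≤ q → ∀ κ T B K₁ U : ℕ, ∃ W N₀ : ℕ,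
    ∀ N : ℕ, N₀ ≤ N → ∀ y : ℕ, K₀ * Real.log (Real.log N) ≤ y → y ≤ K₁ * Real.log (Real.log N) →
    ∀ (ι : Type) [Fintype ι] (p a : ι → ℝ), (∀ x, 0 ≤ p x) → ∑ x, p x = 1 → (∀ x, 2 * N ≤ a x ∧ a x ≤ T * N) →
    collision q p a ≤ Real.log N ^ κ / N →
      (∀ L : ℕ, (L : ℝ) ≤ Real.log N ^ B → ∀ S : Fin L → Finset ℕ, (∀ l, S l ⊆ Icc 1 N) → (∀ l, ∀ s ∈ S l, s.Prime) →
        1 - 1 / Real.log N ^ U ≤ ∑ x, (if ∀ l, AllWindows A J ε W N y (S l) (a x) then p x else 0)) ∧
      (1 ≤ y → ∀ d : ℕ, (N : ℝ) ≤ (Cop y d ((Icc 1 N).filter Nat.Prime)).card * Real.log N ^ 3) := by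
  obtain ⟨K₀, hK₀⟩ := one_d A J ε hε hε1
  refine ⟨K₀, fun q hq κ T B K₁ U => ?_⟩
  obtain ⟨W, n1, hn1⟩ := hK₀ q hq κ T K₁ (U + B + J)
  obtain ⟨n2, hn2⟩ := Pool.Agent.HP27.PG.Pos.cop_low
  obtain ⟨n3, hn3⟩ := Pool.Agent.H373R2.T7.ev_L' 8
  obtain ⟨n4, hn4⟩ : ∃ n4 : ℕ, ∀ N : ℕ, n4 ≤ N → K₁ * Real.log (Real.log N) ≤ Real.log N := by
    have h : Filter.Tendsto (fun N : ℕ => Real.log (Real.log N) / Real.log N) Filter.atTop (nhds 0) := by
      have h1 : Filter.Tendsto (fun x : ℝ => Real.log x / x) Filter.atTop (nhds 0) := by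
        have := Real.isLittleO_log_id_atTop.tendsto_div_nhds_zero
        exact this
      exact h1.comp (Real.tendsto_log_atTop.comp tendsto_natCast_atTop_atTop)
    have h2 := (h.const_mul (K₁ : ℝ)).eventually (gt_mem_nhds (show (K₁ : ℝ) * 0 < 1 by simp))
    obtain ⟨m, hm⟩ := Filter.eventually_atTop.1 h2
    refine ⟨m + 3, fun N hN => ?_⟩
    have h3 := hm N (by omega)
    have h4 : 0 < Real.log N := Real.log_pos (by exact_mod_cast (by omega : 1 < N))
    rw [← mul_div_assoc, div_lt_iff₀ h4] at h3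
    linarith
  refine ⟨W, n1 + n2 + n3 + n4 + 1, fun N hN y hy1 hy2 ι _ p a hp0 hp1 ha hcoll => ?_⟩
  have hL := hn3 N (by omega)
  have hL0 : 0 < Real.log N := by linarith
  refine ⟨fun L hLB S hS _ => ?_, fun hy d => hn2 N (by omega) y hy (hy2.trans (hn4 N (by omega))) d⟩
  obtain ⟨E, hE⟩ : ∃ E, E = ⌊Real.log N ^ J⌋₊ := ⟨_, rfl⟩
  have hEJ : (E : ℝ) ≤ Real.log N ^ J := by rw [hE]; exact Nat.floor_le (by positivity)
  -- the pairs (l, d) which matter
  obtain ⟨P, hP⟩ : ∃ P : Finset (Fin L × ℕ), P = (univ ×ˢ Icc 1 E).filter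
      (fun t => (N : ℝ) ≤ (Cop y t.2 (S t.1)).card * Real.log N ^ A) := ⟨_, rfl⟩
  have hpt : ∀ x, p x ≤ (if ∀ l, AllWindows A J ε W N y (S l) (a x) then p x else 0) +
      ∑ t ∈ P, (if Windows ε W N y t.2 (S t.1) (a x) then 0 else p x) := by
    intro x
    have hnn : ∀ t ∈ P, 0 ≤ (if Windows ε W N y t.2 (S t.1) (a x) then 0 else p x) := by
      intro t _
      split_ifs
      · exact le_rfl
      · exact hp0 x
    by_cases h : ∀ l, AllWindows A J ε W N y (S l) (a x)
    · rw [if_pos h]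
      have := sum_nonneg hnn
      linarith
    · rw [if_neg h, zero_add]
      push Not at h
      obtain ⟨l, hl⟩ := h
      unfold AllWindows at hl
      push Not at hl
      obtain ⟨d, hd1, hd2, hd3, hd4⟩ := hl
      have hmem : (l, d) ∈ P := by
        rw [hP, mem_filter, mem_product, mem_Icc]
        exact ⟨⟨mem_univ _, hd1, by rw [hE]; exact Nat.le_floor hd2⟩, hd3⟩
      calc p x = (if Windows ε W N y (l, d).2 (S (l, d).1) (a x) then 0 else p x) := by rw [if_neg hd4]
        _ ≤ _ := single_le_sum (f := fun t : Fin L × ℕ => if Windows ε W N y t.2 (S t.1) (a x) then 0 else p x) hnn hmem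
  have h1 := sum_le_sum (s := (univ : Finset ι)) fun x _ => hpt x
  rw [hp1, sum_add_distrib, sum_comm] at h1
  have hPc : (P.card : ℝ) ≤ Real.log N ^ B * Real.log N ^ J := by
    have h2 : P.card ≤ L * E := by
      rw [hP]
      refine (card_filter_le _ _).trans (le_of_eq ?_)
      rw [card_product, card_univ, Fintype.card_fin, Nat.card_Icc, Nat.add_sub_cancel]
    calc (P.card : ℝ) ≤ ((L * E : ℕ) : ℝ) := by exact_mod_cast h2
      _ = L * E := by push_cast; ring
      _ ≤ _ := mul_le_mul hLB hEJ (Nat.cast_nonneg _) (by positivity)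
  have h2 : ∑ t ∈ P, ∑ x, (if Windows ε W N y t.2 (S t.1) (a x) then 0 else p x) ≤ 1 / Real.log N ^ U := by
    calc _ ≤ ∑ _t ∈ P, 1 / Real.log N ^ (U + B + J) := by
          refine sum_le_sum fun t ht => ?_
          rw [hP, mem_filter, mem_product, mem_Icc] at ht
          have h3 := hn1 N (by omega) y hy1 hy2 ι p a hp0 hp1 ha hcoll (S t.1) (hS t.1) t.2 ht.1.2.1
            ((show ((t.2 : ℕ) : ℝ) ≤ E by exact_mod_cast ht.1.2.2).trans hEJ) ht.2
          refine le_trans (le_of_eq ?_) h3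
          apply sum_congr rfl
          intro x _
          congr
      _ = P.card * (1 / Real.log N ^ (U + B + J)) := by rw [sum_const, nsmul_eq_mul]
      _ ≤ (Real.log N ^ B * Real.log N ^ J) * (1 / Real.log N ^ (U + B + J)) :=
          mul_le_mul_of_nonneg_right hPc (by positivity)
      _ = 1 / Real.log N ^ U := by
          rw [pow_add, pow_add]
          field_simp
  linarith

end Pool.Agent.Results.MP_0fefc4_nt.DenseSetsShortWindows
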