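import Pool.Agent.H39x.OM.Orb
import Pool.Agent.Y877.Divis

/-!
# Iterates of `x ↦ 2 x - 1`: half of the members of every almost invariant set of times

`a_k(p) = 2 ^ k * (p - 1) + 1` is the `k`-th iterate of `x ↦ 2 x - 1` at `p`; the question is whether
`a_1(p)` is prime for infinitely many primes `p`.

A finite set `F` of positive integers is almost invariant if, for all `k ≤ K`, all but `|F| / K` of its
elements `n` have `k n` in `F`. Examples: the set of ALL divisors of `N`, for every multiple `N` of some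
`M(K)`; the multiples of these divisors by any fixed positive integer, or by the elements of a set of
numbers prime to `N`.

Call `k` a time of consecutive primes if, for every `η > 0` and arbitrarily large `x`, there are at least
`x ^ (1 - η)` primes `p ≤ x` such that `a_k(p)` is prime and none of the numbers `a_l(p)`, `0 < l < k`, is
prime, none of the `R` iterates which follow `a_k(p)` is prime, and `p` is none of the numbers
`a_1(q), ..., a_R(q)` for any prime `q`.

* For all `R` and `ε > 0` there is `K` such that at least `(1/2 - ε) |F|` of the elements of every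
  almost invariant set `F` are times of consecutive primes.
* For every `ε > 0` there is `J` such that for every `R` there is `K` such that at least `(5/9 - ε) |F|` of
  the elements of every almost invariant set are times between isolated primes with at most `J` primes
  in between.
* For all `R` and `ε > 0` there is `M` such that for every multiple `N` of `M` at least half, up to `ε`, of
  the divisors of `N` are times of consecutive primes.

Proof: limits of almost invariant sets of counterexamples (`Pool.Agent.Y877.limU`, `Pool.Agent.Y877.lim`),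
the theorems on classes of multipliers all of whose differences are bad (`Pool.Agent.W25.TF`,
`Pool.Agent.W142.TB`), and the coloured Maynard-Tao theorems for orbits, in which all the other iterates are
made composite (`Pool.Agent.Y862.consecM`, `Pool.Agent.Y827.GS.quarterGD`).
-/

set_option autoImplicit false

namespace Pool.Agent.Results.MP_0fefc4_nt.HalfOfDivisors

open Finset Filter

/-- `a_k(p)`, the `k`-th iterate of `x ↦ 2 x - 1` at `p ≥ 1` -/
def a (p k : ℕ) : ℕ := 2 ^ k * (p - 1) + 1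

/-- `k` is a time of consecutive primes of many orbits: for every `η > 0` and arbitrarily large `x` there
are at least `x ^ (1 - η)` primes `p ≤ x` for which `a_k(p)` is the next prime iterate, it is followed by
`R` composite iterates, and `p` is none of the first `R` iterates of a prime. -/
def Next (R k : ℕ) : Prop := ∀ η : ℝ, 0 < η → ∃ᶠ x : ℝ in atTop,
  x ^ (1 - η) ≤ ({p : ℕ | (p : ℝ) ≤ x ∧ p.Prime ∧ (a p k).Prime ∧
    (∀ l, 0 < l → l < k → ¬ (a p l).Prime) ∧
    ∀ l, 0 < l → l ≤ R → ¬ (a p (k + l)).Prime ∧ ∀ q : ℕ, q.Prime → a q l ≠ p}.ncard : ℝ)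

/-- The same with at most `J` primes between `p` and `a_k(p)`, and both primes isolated up to `R`. -/
def Few (J R k : ℕ) : Prop := ∀ η : ℝ, 0 < η → ∃ᶠ x : ℝ in atTop,
  x ^ (1 - η) ≤ ({p : ℕ | (p : ℝ) ≤ x ∧ p.Prime ∧ (a p k).Prime ∧
    {l : ℕ | 0 < l ∧ l < k ∧ (a p l).Prime}.ncard ≤ J ∧
    ∀ l, 0 < l → l ≤ R → ¬ (a p l).Prime ∧ ¬ (a p (k + l)).Prime ∧
      ¬ (a p (k - l)).Prime ∧ ∀ q : ℕ, q.Prime → a q l ≠ p}.ncard : ℝ)

/-- `F` is almost invariant under the multiplication by the numbers up to `K`. -/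
def AInv (K : ℕ) (F : Finset ℕ) : Prop :=
  ∀ k, 1 ≤ k → k ≤ K → K * (F.filter (fun n => k * n ∉ F)).card ≤ F.card

open Pool.Agent.H447R3.IT in
theorem a_eq (p j : ℕ) (hp : p.Prime) : ((a p j : ℕ) : ℤ) = (S 2 (-1))^[j] (p : ℤ) := by
  have h1 : 1 ≤ p := hp.one_lt.le
  unfold a
  rw [Pool.Agent.H447R3.IT.iter, Pool.Agent.W218.OG.B_two]
  push_cast [Nat.cast_sub h1]
  ring

open Pool.Agent.W218.OG (Pr pr_nat big_count) in
theorem next_of_big (R k : ℕ) (h : Pool.Agent.H732R3.BigQ.Big (Pool.Agent.H39x.OM.NextSet 2 (-1) R k)) :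
    Next R k := by
  refine big_count (h.mono ?_)
  rintro p ⟨hp, h1, h2, h3⟩
  rw [← a_eq p k hp, pr_nat] at h1
  refine ⟨hp, h1, fun l hl0 hl1 => ?_, fun l hl0 hl1 => ⟨?_, ?_⟩⟩
  · have := h2 l hl0 hl1
    rw [← a_eq p l hp, pr_nat] at this
    exact this
  · have := (h3 l hl0 hl1).1
    rw [← a_eq p (k + l) hp, pr_nat] at this
    exact this
  · intro q hq hqp
    apply (h3 l hl0 hl1).2 q ((pr_nat q).2 hq)
    rw [← a_eq q l hq, hqp]

open Pool.Agent.W218.OG (Pr pr_nat big_count) in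
theorem few_of_big (J R k : ℕ) (h : Pool.Agent.H732R3.BigQ.Big (Pool.Agent.H39x.OM.FewSet 2 (-1) J R k)) :
    Few J R k := by
  refine big_count (h.mono ?_)
  rintro p ⟨hp, h1, h2, h3⟩
  rw [← a_eq p k hp, pr_nat] at h1
  refine ⟨hp, h1, ?_, fun l hl0 hl1 => ⟨?_, ?_, ?_, ?_⟩⟩
  · have e : {l : ℕ | 0 < l ∧ l < k ∧ (a p l).Prime} =
        {l : ℕ | 0 < l ∧ l < k ∧ Pr ((Pool.Agent.H447R3.IT.S 2 (-1))^[l] (p : ℤ))} := by
      ext l
      simp only [Set.mem_setOf_eq]
      rw [← a_eq p l hp, pr_nat]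
    rw [e]
    exact h2
  · have := (h3 l hl0 hl1).1
    rw [← a_eq p l hp, pr_nat] at this
    exact this
  · have := (h3 l hl0 hl1).2.1
    rw [← a_eq p (k + l) hp, pr_nat] at this
    exact this
  · have := (h3 l hl0 hl1).2.2.1
    rw [← a_eq p (k - l) hp, pr_nat] at this
    exact this
  · intro q hq hqp
    apply (h3 l hl0 hl1).2.2.2 q ((pr_nat q).2 hq)
    rw [← a_eq q l hq, hqp]

theorem hm1 : ∀ p : ℕ, p.Prime → p ∣ 2 - 1 → (p : ℤ) ∣ (-1) * (1 : ℕ) :=
  fun p hp h => absurd (Nat.dvd_one.1 (by simpa using h)) hp.one_lt.ne'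

open Classical in
theorem half (R : ℕ) (ε : ℝ) (hε : 0 < ε) : ∃ K : ℕ, 1 ≤ K ∧
    ∀ F : Finset ℕ, (∀ n ∈ F, 1 ≤ n) → AInv K F →
    (1 / 2 - ε) * (F.card : ℝ) ≤ ((F.filter (fun k => Next R k)).card : ℝ) := by
  obtain ⟨K, hK, h⟩ := Pool.Agent.H39x.OM.halfO 2 (-1) 1 le_rfl (by norm_num) (by norm_num)
    one_pos hm1 R ε hε
  refine ⟨K, hK, fun F hF hA => (h F hF hA).trans ?_⟩
  exact_mod_cast card_le_card fun n hn => by
    rw [mem_filter] at hn ⊢
    exact ⟨hn.1, next_of_big R n hn.2⟩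

open Classical in
theorem nine (ε : ℝ) (hε : 0 < ε) : ∃ J : ℕ, ∀ R : ℕ, ∃ K : ℕ, 1 ≤ K ∧
    ∀ F : Finset ℕ, (∀ n ∈ F, 1 ≤ n) → AInv K F →
    (5 / 9 - ε) * (F.card : ℝ) ≤ ((F.filter (fun k => Few J R k)).card : ℝ) := by
  obtain ⟨J, h⟩ := Pool.Agent.H39x.OM.nineO ε hε
  refine ⟨J, fun R => ?_⟩
  obtain ⟨K, hK, h⟩ := h 2 (-1) 1 le_rfl (by norm_num) (by norm_num) one_pos hm1 R
  refine ⟨K, hK, fun F hF hA => (h F hF hA).trans ?_⟩
  exact_mod_cast card_le_card fun n hn => by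
    rw [mem_filter] at hn ⊢
    exact ⟨hn.1, few_of_big J R n hn.2⟩

open Classical in
theorem result :
    (∀ (R : ℕ) (ε : ℝ), 0 < ε → ∃ K : ℕ, 1 ≤ K ∧
      ∀ F : Finset ℕ, (∀ n ∈ F, 1 ≤ n) → AInv K F →
      (1 / 2 - ε) * (F.card : ℝ) ≤ ((F.filter (fun k => Next R k)).card : ℝ)) ∧
    (∀ ε : ℝ, 0 < ε → ∃ J : ℕ, ∀ R : ℕ, ∃ K : ℕ, 1 ≤ K ∧
      ∀ F : Finset ℕ, (∀ n ∈ F, 1 ≤ n) → AInv K F →
      (5 / 9 - ε) * (F.card : ℝ) ≤ ((F.filter (fun k => Few J R k)).card : ℝ)) ∧
    (∀ (R : ℕ) (ε : ℝ), 0 < ε → ∃ M : ℕ, 1 ≤ M ∧ ∀ N : ℕ, 0 < N → M ∣ N →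
      (1 / 2 - ε) * (N.divisors.card : ℝ) ≤ ((N.divisors.filter (fun k => Next R k)).card : ℝ)) := by
  refine ⟨half, nine, fun R ε hε => ?_⟩
  obtain ⟨K, hK, h⟩ := half R ε hε
  obtain ⟨M, hM, hd⟩ := Pool.Agent.Y877.divisors_inv K
  exact ⟨M, hM, fun N hN hMN => h N.divisors (fun n hn => Nat.pos_of_mem_divisors hn)
    (hd N hN hMN)⟩

end Pool.Agent.Results.MP_0fefc4_nt.HalfOfDivisors
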