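import Mathlib
import Pool.Agent.HP27.S3.Exp

set_option autoImplicit false

/-!
# Every large multiple of six is a sum of exactly three exponents `k` with `p` and `2 ^ k (p - 1) + 1` prime infinitely often

`2 ^ k (p - 1) + 1` is the `k`-th iterate of `p ↦ 2 p - 1`; the problem is the case `k = 1`. The known theorems give a
positive proportion of the exponents `k`. Here it is shown that EVERY large multiple of `6` is a SUM of exactly three
exponents `k` (and of exactly `m`, for every `m ≥ 3`), larger than an arbitrary bound, for which there are many primes `p`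
such that `2 ^ k (p - 1) + 1` is prime, even along narrow arithmetic progressions of any length; and the same for every
base `d ≥ 2` in place of `2`.

Proof. By the coloured Maynard-Tao theorem (`Pool.Agent.H40E9.CM.pair4`, from the starting files) among four classes of
exponents there are always two of different classes whose difference is such a `k`. A combinatorial argument
(`Pool.Agent.HP27.S3`) shows that this property of a set of natural numbers implies the representation of all large
multiples of six: if infinitely many multiples of six were not sums of three elements, then a limit set of the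
set would be a subgroup of index at most three of the integers, and there would be four classes without such a difference.
-/

namespace Pool.Agent.Results.MP_0fefc4_nt.SumsOfThreeExponents

open Filter

/-- For every length `l` there is `C` such that for infinitely many `N` there is `D` with `1 ≤ D ≤ log ^ C N` such that
at least `N / log ^ C N` of the `q ≤ N` have the property that all the numbers `q + t D`, `t < l`, and all the numbers
`d ^ k (q + t D - 1) + 1` are primes. -/
def Common (d k : ℕ) : Prop := ∀ l : ℕ, ∃ C : ℕ, ∃ᶠ N : ℕ in atTop, ∃ D : ℕ, 1 ≤ D ∧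
  (D : ℝ) ≤ Real.log N ^ C ∧ (N : ℝ) / Real.log N ^ C ≤
    ({q : ℕ | q ≤ N ∧ ∀ t < l, (q + t * D).Prime ∧ (d ^ k * (q + t * D - 1) + 1).Prime}.ncard : ℝ)

/-- (1) For all `d ≥ 2`, `m ≥ 3` and `G`, every large multiple of six is the sum of `m` exponents `k > G` with
`Common d k`. (2) Every large multiple of six is the sum of three exponents `k` for which there are infinitely many primes
`p` such that `2 ^ k (p - 1) + 1` is prime. -/
theorem result :
    (∀ d m G : ℕ, 2 ≤ d → 3 ≤ m → ∃ N : ℕ, ∀ h : ℕ, N ≤ h → 6 ∣ h →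
      ∃ g : Fin m → ℕ, (∀ i, G < g i ∧ Common d (g i)) ∧ ∑ i, g i = h) ∧
    (∃ N : ℕ, ∀ h : ℕ, N ≤ h → 6 ∣ h → ∃ k₁ k₂ k₃ : ℕ, k₁ + k₂ + k₃ = h ∧
      ∀ k ∈ ({k₁, k₂, k₃} : Finset ℕ), {p : ℕ | p.Prime ∧ (2 ^ k * (p - 1) + 1).Prime}.Infinite) := by
  have hgood : ∀ d k : ℕ, Pool.Agent.H40E9.CM.Good (1 - (d : ℤ) ^ k, (d : ℤ) ^ k) → Common d k := by
    intro d k hg l
    obtain ⟨C, hC⟩ := hg l
    refine ⟨C, hC.mono fun N hN => ?_⟩
    obtain ⟨D, h1, h2, h3⟩ := hN
    refine ⟨D, h1, h2, h3.trans ?_⟩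
    rw [Nat.cast_le]
    refine Set.ncard_le_ncard ?_ ((Set.finite_Iic N).subset fun q hq => hq.1)
    rintro q ⟨hq, hall⟩
    refine ⟨hq, fun t ht => ?_⟩
    obtain ⟨h4, p, hp, hpe⟩ := hall t ht
    refine ⟨h4, ?_⟩
    have h5 : 1 ≤ q + t * D := h4.one_lt.le
    have h6 : (p : ℤ) = ((d ^ k * (q + t * D - 1) + 1 : ℕ) : ℤ) := by
      rw [hpe]
      push_cast [Nat.cast_sub h5]
      ring
    have h7 : p = d ^ k * (q + t * D - 1) + 1 := by exact_mod_cast h6
    rwa [← h7]
  have h1 : ∀ d m G : ℕ, 2 ≤ d → 3 ≤ m → ∃ N : ℕ, ∀ h : ℕ, N ≤ h → 6 ∣ h →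
      ∃ g : Fin m → ℕ, (∀ i, G < g i ∧ Common d (g i)) ∧ ∑ i, g i = h := by
    intro d m G hd hm
    obtain ⟨N, hN⟩ := Pool.Agent.HP27.S3.exps hd m hm G
    refine ⟨N, fun h hh h6 => ?_⟩
    obtain ⟨g, hg, hs⟩ := hN h hh h6
    exact ⟨g, fun i => ⟨(hg i).2, hgood d _ (hg i).1⟩, hs⟩
  refine ⟨h1, ?_⟩
  obtain ⟨N, hN⟩ := h1 2 3 0 le_rfl le_rfl
  refine ⟨N, fun h hh h6 => ?_⟩
  obtain ⟨g, hg, hs⟩ := hN h hh h6
  refine ⟨g 0, g 1, g 2, by rw [← hs, Fin.sum_univ_three], ?_⟩
  have key : ∀ i, {p : ℕ | p.Prime ∧ (2 ^ (g i) * (p - 1) + 1).Prime}.Infinite := by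
    intro i hfin
    obtain ⟨C, hC⟩ := (hg i).2 1
    obtain ⟨c, hc⟩ : ∃ c : ℝ, c = ({p : ℕ | p.Prime ∧ (2 ^ (g i) * (p - 1) + 1).Prime}.ncard : ℝ) := ⟨_, rfl⟩
    have ht : Tendsto (fun s : ℕ => (s : ℝ) / Real.log s ^ C) atTop atTop := by
      have h1 : Tendsto (fun x : ℝ => x / Real.log x ^ C) atTop atTop := by
        have h3 : (fun x : ℝ => Real.log x ^ C) =o[atTop] (fun x : ℝ => x) := by
          have := isLittleO_log_rpow_rpow_atTop (s := 1) (C : ℝ) one_pos
          simpa using this
        have h4 := h3.tendsto_div_nhds_zero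
        have h5 : Tendsto (fun x : ℝ => (Real.log x ^ C / x)⁻¹) atTop atTop := by
          apply Tendsto.inv_tendsto_nhdsGT_zero
          rw [tendsto_nhdsWithin_iff]
          refine ⟨h4, ?_⟩
          filter_upwards [eventually_gt_atTop (1 : ℝ)] with x hx
          have : 0 < Real.log x := Real.log_pos hx
          rw [Set.mem_Ioi]
          positivity
        refine h5.congr fun x => ?_
        rw [inv_div]
      exact h1.comp tendsto_natCast_atTop_atTop
    obtain ⟨N', hN1, hN2⟩ := (hC.and_eventually (ht.eventually_gt_atTop c)).exists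
    obtain ⟨D, -, -, h3⟩ := hN1
    have h4 : ({q : ℕ | q ≤ N' ∧ ∀ t < 1, (q + t * D).Prime ∧ (2 ^ (g i) * (q + t * D - 1) + 1).Prime}.ncard : ℝ) ≤ c := by
      rw [hc]
      have h5 : {q : ℕ | q ≤ N' ∧ ∀ t < 1, (q + t * D).Prime ∧ (2 ^ (g i) * (q + t * D - 1) + 1).Prime} ⊆
          {p : ℕ | p.Prime ∧ (2 ^ (g i) * (p - 1) + 1).Prime} := by
        rintro q ⟨-, hq⟩
        have := hq 0 (by norm_num)
        rwa [Nat.zero_mul, Nat.add_zero] at this
      exact_mod_cast Set.ncard_le_ncard h5 hfin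
    linarith
  intro k hk
  simp only [Finset.mem_insert, Finset.mem_singleton] at hk
  rcases hk with rfl | rfl | rfl
  · exact key 0
  · exact key 1
  · exact key 2

end Pool.Agent.Results.MP_0fefc4_nt.SumsOfThreeExponents
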